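import Pool.Agent.K.MP_7d68c1_gt.C0

open scoped MatrixGroups
open Pool.Agent.P.MP_7d68c1_gt

theorem Pool.Agent.Results.MP_7d68c1_gt.Counterexample.result :
    ∃ Γ : Subgroup PGL(4, ℝ), CC Γ ∧
      ∃ (ρ : Γ →* PGL(4, ℝ)) (U : Set (Γ → PGL(4, ℝ))), IsOpen U ∧ ⇑ρ ∈ U ∧
        (∀ ρ' : Γ →* PGL(4, ℝ), ⇑ρ' ∈ U → Function.Injective ρ' ∧ NaiveCC ρ'.range) ∧
        ¬ CC ρ.range :=
  Pool.Agent.P.MP_7d68c1_gt.main
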